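import Mathlib

set_option autoImplicit false

namespace Pool.Agent.Results.MP_078f6d_al.PositiveBasis

open TensorProduct Coalgebra Module

universe u v w

section Defs

variable (k : Type u) [Field k] (H : Type v) [Ring H] [HopfAlgebra k H]

/-- `Φ_H = (id ⊗ m)(Δ ⊗ id)`, that is `x ⊗ y ↦ x₍₁₎ ⊗ x₍₂₎ y`. -/
noncomputable def Phi : H ⊗[k] H →ₗ[k] H ⊗[k] H :=
  LinearMap.lTensor H (LinearMap.mul' k H) ∘ₗ (TensorProduct.assoc k H H H).toLinearMap ∘ₗ
    LinearMap.rTensor H (comul : H →ₗ[k] H ⊗[k] H)

variable {k H}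

/-- A basis is `Φ`-set theoretic if `Φ_H(b ⊗ c) = b' ⊗ c'` with `b', c'` in the basis. -/
def IsPhiSetTheoretic {ι : Type w} (b : Basis ι k H) : Prop :=
  ∀ i j, ∃ i' j', Phi k H (b i ⊗ₜ[k] b j) = b i' ⊗ₜ[k] b j'

/-- A scalar is nonnegative if its image in `ℂ` is a real number `≥ 0`. -/
def Nonneg (σ : k →+* ℂ) (a : k) : Prop := ∃ r : ℝ, 0 ≤ r ∧ σ a = (r : ℂ)

/-- Conditions (1)-(5). -/
structure IsPositiveBasis (σ : k →+* ℂ) {ι : Type w} (b : Basis ι k H) : Prop where
  one_coord : ∀ i, Nonneg σ (b.repr 1 i)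
  counit_val : ∀ i, Nonneg σ (counit (R := k) (b i))
  mul_coord : ∀ i j l, Nonneg σ (b.repr (b i * b j) l)
  comul_coord : ∀ i p q, Nonneg σ ((b.tensorProduct b).repr (comul (R := k) (b i)) (p, q))
  antipode_coord : ∀ i l, Nonneg σ (b.repr (HopfAlgebra.antipode k (b i)) l)

end Defs

variable {k : Type u} [Field k] {H : Type v} [Ring H] [HopfAlgebra k H]

/-- Right multiplication. -/
noncomputable abbrev rm (k : Type u) [Field k] {H : Type v} [Ring H] [HopfAlgebra k H] (y : H) :
    H →ₗ[k] H := LinearMap.mulRight k y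

/-- The map `x ⊗ y ↦ x₍₁₎ ⊗ α(x₍₂₎) y`. -/
noncomputable def TT (α : H →ₗ[k] H) : H ⊗[k] H →ₗ[k] H ⊗[k] H :=
  LinearMap.lTensor H (LinearMap.mul' k H) ∘ₗ (TensorProduct.assoc k H H H).toLinearMap ∘ₗ
    LinearMap.rTensor H (LinearMap.lTensor H α ∘ₗ (comul : H →ₗ[k] H ⊗[k] H))

lemma TT_id : TT (LinearMap.id : H →ₗ[k] H) = Phi k H := by
  unfold TT Phi
  rw [LinearMap.lTensor_id, LinearMap.id_comp]

lemma aux (α : H →ₗ[k] H) (y : H) (t : H ⊗[k] H) :
    LinearMap.lTensor H (LinearMap.mul' k H) (TensorProduct.assoc k H H H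
      ((LinearMap.lTensor H α t) ⊗ₜ[k] y)) = LinearMap.lTensor H (rm k y ∘ₗ α) t := by
  induction t using TensorProduct.induction_on with
  | zero => simp
  | tmul a c => simp
  | add a c ha hc => rw [map_add, add_tmul, map_add, map_add, ha, hc, map_add]

lemma TT_tmul (α : H →ₗ[k] H) (x y : H) :
    TT α (x ⊗ₜ[k] y) = LinearMap.lTensor H (rm k y ∘ₗ α) (comul x) := by
  rw [← aux]
  rfl

/-- Convolution. -/
noncomputable def conv (α β : H →ₗ[k] H) : H →ₗ[k] H :=
  LinearMap.mul' k H ∘ₗ TensorProduct.map α β ∘ₗ (comul : H →ₗ[k] H ⊗[k] H)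

lemma TT_comp (α β : H →ₗ[k] H) (t : H ⊗[k] H) : TT α (TT β t) = TT (conv α β) t := by
  induction t using TensorProduct.induction_on with
  | zero => simp
  | add a c ha hc => simp only [map_add, ha, hc]
  | tmul x y =>
    rw [TT_tmul, TT_tmul]
    -- the two linear maps of `comul x`
    let Q : (H ⊗[k] H) ⊗[k] H →ₗ[k] H ⊗[k] H :=
      LinearMap.lTensor H (LinearMap.mul' k H) ∘ₗ (TensorProduct.assoc k H H H).toLinearMap ∘ₗ
        TensorProduct.map (LinearMap.lTensor H α) (rm k y ∘ₗ β)
    have h1 : ∀ t : H ⊗[k] H, TT α (LinearMap.lTensor H (rm k y ∘ₗ β) t) =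
        Q (LinearMap.rTensor H (comul : H →ₗ[k] H ⊗[k] H) t) := by
      intro t
      induction t using TensorProduct.induction_on with
      | zero => simp
      | add a c ha hc => simp only [map_add, ha, hc]
      | tmul a c => rfl
    have h2 : ∀ s : (H ⊗[k] H) ⊗[k] H, Q s =
        LinearMap.lTensor H (rm k y ∘ₗ LinearMap.mul' k H ∘ₗ TensorProduct.map α β)
          (TensorProduct.assoc k H H H s) := by
      intro s
      induction s using TensorProduct.induction_on with
      | zero => simp
      | add a c ha hc => simp only [map_add, ha, hc]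
      | tmul t c =>
        induction t using TensorProduct.induction_on with
        | zero => simp
        | add a c ha hc => simp only [add_tmul, map_add, ha, hc]
        | tmul a d =>
          simp [Q, mul_assoc]
    rw [h1, h2, Coalgebra.coassoc_apply]
    unfold conv
    rw [← LinearMap.comp_apply, ← LinearMap.lTensor_comp]
    rfl

lemma conv_left : conv (LinearMap.id : H →ₗ[k] H) (HopfAlgebra.antipode k) =
    (Algebra.linearMap k H) ∘ₗ counit := HopfAlgebra.mul_antipode_lTensor_comul

lemma conv_right : conv (HopfAlgebra.antipode k) (LinearMap.id : H →ₗ[k] H) =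
    (Algebra.linearMap k H) ∘ₗ counit := HopfAlgebra.mul_antipode_rTensor_comul

lemma TT_unit (t : H ⊗[k] H) : TT ((Algebra.linearMap k H) ∘ₗ counit) t = t := by
  induction t using TensorProduct.induction_on with
  | zero => simp
  | add a c ha hc => simp only [map_add, ha, hc]
  | tmul x y =>
    rw [TT_tmul, ← LinearMap.comp_assoc, LinearMap.lTensor_comp, LinearMap.comp_apply,
      Coalgebra.lTensor_counit_comul]
    simp

lemma Phi_injective : Function.Injective (Phi k H) := by
  intro s t h
  have : TT (HopfAlgebra.antipode k) (Phi k H s) = TT (HopfAlgebra.antipode k) (Phi k H t) := by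
    rw [h]
  rwa [← TT_id, TT_comp, TT_comp, conv_right, TT_unit, TT_unit] at this

lemma Phi_surjective : Function.Surjective (Phi k H) := by
  intro t
  refine ⟨TT (HopfAlgebra.antipode k) t, ?_⟩
  rw [← TT_id, TT_comp, conv_left, TT_unit]

lemma Phi_tmul (x y : H) : Phi k H (x ⊗ₜ[k] y) = LinearMap.lTensor H (rm k y) (comul x) := by
  rw [← TT_id, TT_tmul, LinearMap.comp_id]

/-- `(ε ⊗ id) Φ(x ⊗ y) = x y`. -/
lemma counit_Phi (x y : H) :
    TensorProduct.lid k H (LinearMap.rTensor H counit (Phi k H (x ⊗ₜ[k] y))) = x * y := by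
  rw [Phi_tmul, ← LinearMap.comp_apply, LinearMap.rTensor_comp_lTensor,
    ← LinearMap.lTensor_comp_rTensor, LinearMap.comp_apply, Coalgebra.rTensor_counit_comul]
  simp

/-- `(id ⊗ ε) Φ(x ⊗ y) = ε(y) x`. -/
lemma Phi_counit (x y : H) :
    TensorProduct.rid k H (LinearMap.lTensor H counit (Phi k H (x ⊗ₜ[k] y))) =
      counit (R := k) y • x := by
  have h : (counit : H →ₗ[k] k) ∘ₗ rm k y = (LinearMap.mulRight k (counit (R := k) y)) ∘ₗ counit := by
    ext z
    simp
  rw [Phi_tmul, ← LinearMap.comp_apply, ← LinearMap.lTensor_comp, h, LinearMap.lTensor_comp,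
    LinearMap.comp_apply, Coalgebra.lTensor_counit_comul]
  simp

/-- `m (S ⊗ id) Φ(x ⊗ y) = ε(x) y`. -/
lemma antipode_Phi (x y : H) :
    LinearMap.mul' k H (LinearMap.rTensor H (HopfAlgebra.antipode k) (Phi k H (x ⊗ₜ[k] y))) =
      counit (R := k) x • y := by
  have h : ∀ t : H ⊗[k] H, LinearMap.mul' k H (LinearMap.rTensor H (HopfAlgebra.antipode k)
      (LinearMap.lTensor H (rm k y) t)) =
      rm k y (LinearMap.mul' k H (LinearMap.rTensor H (HopfAlgebra.antipode k) t)) := by
    intro t
    induction t using TensorProduct.induction_on with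
    | zero => simp
    | add a c ha hc => simp only [map_add, ha, hc]
    | tmul a c => simp [mul_assoc]
  rw [Phi_tmul, h, HopfAlgebra.mul_antipode_rTensor_comul_apply]
  simp [Algebra.smul_def]

lemma Phi_one (x : H) : Phi k H (x ⊗ₜ[k] (1 : H)) = comul x := by
  rw [Phi_tmul]
  have : rm k (1 : H) = LinearMap.id := by ext z; simp
  rw [this, LinearMap.lTensor_id]
  rfl

section Comb

variable {ι : Type w} (b : Basis ι k H) (f g : ι → ι → ι)
  (hfg : ∀ i j, Phi k H (b i ⊗ₜ[k] b j) = b (f i j) ⊗ₜ[k] b (g i j))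

include hfg

lemma mul_eq (i j : ι) : b i * b j = counit (R := k) (b (f i j)) • b (g i j) := by
  rw [← counit_Phi (k := k), hfg]
  simp

lemma counit_eq (i j : ι) :
    counit (R := k) (b j) • b i = counit (R := k) (b (g i j)) • b (f i j) := by
  rw [← Phi_counit, hfg]
  simp

lemma f_eq {i j : ι} (hj : counit (R := k) (b j) ≠ 0) :
    f i j = i ∧ counit (R := k) (b (g i j)) = counit (R := k) (b j) := by
  have h := counit_eq b f g hfg i j
  have h1 := congrArg (fun x => b.repr x i) h
  simp only [map_smul, Basis.repr_self, Finsupp.smul_apply, Finsupp.single_eq_same, smul_eq_mul,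
    mul_one] at h1
  by_cases hf : f i j = i
  · rw [hf] at h1
    rw [Finsupp.single_eq_same, mul_one] at h1
    exact ⟨hf, h1.symm⟩
  · rw [Finsupp.single_eq_of_ne (Ne.symm hf), mul_zero] at h1
    exact absurd h1 hj

lemma g_zero {i j : ι} (hj : counit (R := k) (b j) = 0) : counit (R := k) (b (g i j)) = 0 := by
  have h := counit_eq b f g hfg i j
  rw [hj, zero_smul] at h
  have h2 := h.symm
  rw [smul_eq_zero] at h2
  exact h2.resolve_right (b.ne_zero _)

lemma fg_inj {i j i' j' : ι} (h1 : f i j = f i' j') (h2 : g i j = g i' j') : i = i' ∧ j = j' := by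
  have h3 : Phi k H (b i ⊗ₜ[k] b j) = Phi k H (b i' ⊗ₜ[k] b j') := by rw [hfg, hfg, h1, h2]
  have h4 := Phi_injective h3
  have h5 : (b.tensorProduct b) (i, j) = (b.tensorProduct b) (i', j') := by
    rw [Basis.tensorProduct_apply, Basis.tensorProduct_apply]; exact h4
  have h6 := (b.tensorProduct b).injective h5
  simpa using h6

/-- The coordinate of `Φ t` at the image of an index pair. -/
lemma coord_Phi (a c : ι) (t : H ⊗[k] H) :
    (b.tensorProduct b).repr (Phi k H t) (f a c, g a c) = (b.tensorProduct b).repr t (a, c) := by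
  classical
  have h : ((b.tensorProduct b).coord (f a c, g a c)) ∘ₗ Phi k H = (b.tensorProduct b).coord (a, c) := by
    apply (b.tensorProduct b).ext
    rintro ⟨i, j⟩
    rw [LinearMap.comp_apply, Basis.tensorProduct_apply, hfg, ← Basis.tensorProduct_apply b b (f i j),
      ← Basis.tensorProduct_apply b b i j, Basis.coord_apply, Basis.coord_apply, Basis.repr_self,
      Basis.repr_self]
    by_cases hh : (f i j, g i j) = (f a c, g a c)
    · have h1 := congrArg Prod.fst hh
      have h2 := congrArg Prod.snd hh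
      obtain ⟨rfl, rfl⟩ := fg_inj b f g hfg h1 h2
      simp
    · have hh2 : (i, j) ≠ (a, c) := by
        intro h0
        apply hh
        have h1 : i = a := congrArg Prod.fst h0
        have h2 : j = c := congrArg Prod.snd h0
        rw [h1, h2]
      rw [Finsupp.single_eq_of_ne (Ne.symm hh), Finsupp.single_eq_of_ne (Ne.symm hh2)]
  exact LinearMap.congr_fun h t

lemma fg_surj (p q : ι) : ∃ i j, f i j = p ∧ g i j = q := by
  classical
  by_contra hcon
  push Not at hcon
  have h : ((b.tensorProduct b).coord (p, q)) ∘ₗ Phi k H = 0 := by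
    apply (b.tensorProduct b).ext
    rintro ⟨i, j⟩
    rw [LinearMap.comp_apply, Basis.tensorProduct_apply, hfg, ← Basis.tensorProduct_apply b b (f i j),
      Basis.coord_apply, Basis.repr_self, LinearMap.zero_apply]
    apply Finsupp.single_eq_of_ne
    intro h0
    have h1 : p = f i j := congrArg Prod.fst h0
    have h2 : q = g i j := congrArg Prod.snd h0
    exact hcon i j h1.symm h2.symm
  obtain ⟨t, ht⟩ := Phi_surjective (k := k) (H := H) (b p ⊗ₜ[k] b q)
  have h1 := LinearMap.congr_fun h t
  rw [LinearMap.comp_apply, ht, ← Basis.tensorProduct_apply b b p q, Basis.coord_apply,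
    Basis.repr_self, LinearMap.zero_apply, Finsupp.single_eq_same] at h1
  exact one_ne_zero h1

/-- Coordinates of `b i * 1`. -/
lemma coord_mul_one (i m : ι) :
    (Finsupp.single i (1 : k)) m = ∑ j ∈ (b.repr (1 : H)).support,
      b.repr 1 j * (counit (R := k) (b (f i j)) * (Finsupp.single (g i j) (1 : k)) m) := by
  have h1 : (1 : H) = ∑ j ∈ (b.repr (1 : H)).support, b.repr 1 j • b j := by
    conv_lhs => rw [← b.linearCombination_repr (1 : H)]
    rw [Finsupp.linearCombination_apply, Finsupp.sum]
  have h2 : b i = ∑ j ∈ (b.repr (1 : H)).support,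
      (b.repr 1 j * counit (R := k) (b (f i j))) • b (g i j) := by
    conv_lhs => rw [← mul_one (b i), h1, Finset.mul_sum]
    refine Finset.sum_congr rfl (fun j _ => ?_)
    rw [mul_smul_comm, mul_eq b f g hfg, smul_smul]
  have h3 := congrArg (fun x => b.repr x m) h2
  simp only [Basis.repr_self, map_sum, map_smul, Finsupp.coe_finsetSum, Finset.sum_apply,
    Finsupp.smul_apply, smul_eq_mul] at h3
  rw [h3]
  refine Finset.sum_congr rfl (fun j _ => by ring)

/-- Coordinates of `1 * b j`. -/
lemma coord_one_mul (j m : ι) :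
    (Finsupp.single j (1 : k)) m = ∑ i ∈ (b.repr (1 : H)).support,
      b.repr 1 i * (counit (R := k) (b (f i j)) * (Finsupp.single (g i j) (1 : k)) m) := by
  have h1 : (1 : H) = ∑ j ∈ (b.repr (1 : H)).support, b.repr 1 j • b j := by
    conv_lhs => rw [← b.linearCombination_repr (1 : H)]
    rw [Finsupp.linearCombination_apply, Finsupp.sum]
  have h2 : b j = ∑ i ∈ (b.repr (1 : H)).support,
      (b.repr 1 i * counit (R := k) (b (f i j))) • b (g i j) := by
    conv_lhs => rw [← one_mul (b j), h1, Finset.sum_mul]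
    refine Finset.sum_congr rfl (fun i _ => ?_)
    rw [smul_mul_assoc, mul_eq b f g hfg, smul_smul]
  have h3 := congrArg (fun x => b.repr x m) h2
  simp only [Basis.repr_self, map_sum, map_smul, Finsupp.coe_finsetSum, Finset.sum_apply,
    Finsupp.smul_apply, smul_eq_mul] at h3
  rw [h3]
  refine Finset.sum_congr rfl (fun j _ => by ring)

/-- First consequence: on indices with nonzero counit. -/
lemma claim1 {i j : ι} (hi : counit (R := k) (b i) ≠ 0) (hj : counit (R := k) (b j) ≠ 0)
    (hjE : b.repr 1 j ≠ 0) : b.repr 1 j * counit (R := k) (b i) = 1 ∧ g i j = i := by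
  classical
  have h := coord_mul_one b f g hfg i (g i j)
  rw [Finset.sum_eq_single j] at h
  · rw [Finsupp.single_eq_same, mul_one, (f_eq b f g hfg hj).1] at h
    have hne : b.repr 1 j * counit (R := k) (b i) ≠ 0 := mul_ne_zero hjE hi
    by_cases hgi : g i j = i
    · rw [hgi, Finsupp.single_eq_same] at h
      exact ⟨h.symm, hgi⟩
    · rw [Finsupp.single_eq_of_ne hgi] at h
      exact absurd h.symm hne
  · intro j' _ hne
    by_cases hg : g i j' = g i j
    · exfalso
      have h1 : counit (R := k) (b j') ≠ 0 := by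
        intro h0
        have h2 := g_zero b f g hfg (i := i) h0
        rw [hg, (f_eq b f g hfg hj).2] at h2
        exact hj h2
      have h3 : f i j' = f i j := by rw [(f_eq b f g hfg h1).1, (f_eq b f g hfg hj).1]
      exact hne (fg_inj b f g hfg h3 hg).2
    · rw [Finsupp.single_eq_of_ne (Ne.symm hg), mul_zero, mul_zero]
  · intro h0
    exact absurd (Finsupp.notMem_support_iff.1 h0) hjE

omit hfg in
lemma exists_c0 : ∃ c0 : ι, counit (R := k) (b c0) ≠ 0 ∧ b.repr (1 : H) c0 ≠ 0 := by
  by_contra hcon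
  push Not at hcon
  have h1 : (1 : H) = ∑ j ∈ (b.repr (1 : H)).support, b.repr 1 j • b j := by
    conv_lhs => rw [← b.linearCombination_repr (1 : H)]
    rw [Finsupp.linearCombination_apply, Finsupp.sum]
  have h2 := congrArg (counit (R := k)) h1
  rw [Bialgebra.counit_one, map_sum, Finset.sum_eq_zero] at h2
  · exact one_ne_zero h2
  · intro j _
    rw [map_smul, smul_eq_mul]
    by_cases hj : counit (R := k) (b j) = 0
    · rw [hj, mul_zero]
    · rw [hcon j hj, zero_mul]

lemma lam_mul (a c : ι) :
    b.repr (1 : H) (f a c) * b.repr (1 : H) (g a c) = b.repr (1 : H) a * b.repr (1 : H) c := by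
  have h := coord_Phi b f g hfg a c ((1 : H) ⊗ₜ[k] (1 : H))
  rw [Phi_one, Bialgebra.comul_one, Algebra.TensorProduct.one_def] at h
  rw [Basis.tensorProduct_repr_tmul_apply, Basis.tensorProduct_repr_tmul_apply] at h
  simpa [mul_comm] using h

/-- The key fact: all nonzero coordinates of `1` are equal to the inverse of the common nonzero
value of the counit on the basis. -/
lemma key : ∃ e0 : k, e0 ≠ 0 ∧ (∀ i, counit (R := k) (b i) = 0 ∨ counit (R := k) (b i) = e0) ∧
    (∀ d, b.repr (1 : H) d = 0 ∨ b.repr (1 : H) d * e0 = 1) := by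
  classical
  obtain ⟨c0, hc1, hc2⟩ := exists_c0 b
  refine ⟨counit (R := k) (b c0), hc1, ?_, ?_⟩
  · intro i
    by_cases hi : counit (R := k) (b i) = 0
    · exact Or.inl hi
    · right
      have h1 := (claim1 b f g hfg hi hc1 hc2).1
      have h2 := (claim1 b f g hfg hc1 hc1 hc2).1
      exact mul_left_cancel₀ hc2 (h1.trans h2.symm)
  · -- uniqueness of `c0`
    have huniq : ∀ j, counit (R := k) (b j) ≠ 0 → b.repr (1 : H) j ≠ 0 → j = c0 := by
      intro j h1 h2
      have h3 := (claim1 b f g hfg hc1 h1 h2).2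
      have h4 := (claim1 b f g hfg hc1 hc1 hc2).2
      have h5 : f c0 j = f c0 c0 := by rw [(f_eq b f g hfg h1).1, (f_eq b f g hfg hc1).1]
      exact (fg_inj b f g hfg h5 (h3.trans h4.symm)).2
    have hE : ∀ a c, b.repr (1 : H) a ≠ 0 → b.repr (1 : H) c ≠ 0 → b.repr (1 : H) (f a c) ≠ 0 := by
      intro a c ha hc h0
      have := lam_mul b f g hfg a c
      rw [h0, zero_mul] at this
      exact mul_ne_zero ha hc this.symm
    intro d
    by_cases hd : b.repr (1 : H) d = 0
    · exact Or.inl hd
    right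
    -- there is `x` with `f x d = c0`, `g x d = d`
    have hx : ∃ x, b.repr (1 : H) x ≠ 0 ∧ counit (R := k) (b (f x d)) ≠ 0 ∧ g x d = d := by
      by_contra hcon
      push Not at hcon
      have h := coord_one_mul b f g hfg d d
      rw [Finsupp.single_eq_same, Finset.sum_eq_zero] at h
      · exact one_ne_zero h
      · intro x hx
        rw [Finsupp.mem_support_iff] at hx
        by_cases h1 : counit (R := k) (b (f x d)) = 0
        · rw [h1, zero_mul, mul_zero]
        · have h2 := hcon x hx h1
          rw [Finsupp.single_eq_of_ne (Ne.symm h2), mul_zero, mul_zero]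
    obtain ⟨x, hx1, hx2, hx3⟩ := hx
    have hfx : f x d = c0 := huniq _ hx2 (hE x d hx1 hd)
    have h := coord_mul_one b f g hfg x (g x d)
    rw [Finset.sum_eq_single d] at h
    · rw [Finsupp.single_eq_same, mul_one, hfx] at h
      have hne : b.repr 1 d * counit (R := k) (b c0) ≠ 0 := mul_ne_zero hd hc1
      by_cases hgi : g x d = x
      · rw [hgi, Finsupp.single_eq_same] at h
        exact h.symm
      · rw [Finsupp.single_eq_of_ne hgi] at h
        exact absurd h.symm hne
    · intro d' hd' hne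
      rw [Finsupp.mem_support_iff] at hd'
      by_cases h1 : counit (R := k) (b (f x d')) = 0
      · rw [h1, zero_mul, mul_zero]
      · have h2 : f x d' = c0 := huniq _ h1 (hE x d' hx1 hd')
        have h3 : g x d' ≠ g x d := by
          intro h4
          exact hne (fg_inj b f g hfg (h2.trans hfx.symm) h4).2
        rw [Finsupp.single_eq_of_ne (Ne.symm h3), mul_zero, mul_zero]
    · intro h0
      exact absurd (Finsupp.notMem_support_iff.1 h0) hd

end Comb

/-- Being a natural number. -/
def NN (a : k) : Prop := ∃ n : ℕ, a = n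

lemma NN.zero : NN (0 : k) := ⟨0, by simp⟩

lemma NN.one : NN (1 : k) := ⟨1, by simp⟩

lemma NN.add {a c : k} (ha : NN a) (hc : NN c) : NN (a + c) := by
  obtain ⟨n, rfl⟩ := ha
  obtain ⟨m, rfl⟩ := hc
  exact ⟨n + m, by push_cast; rfl⟩

lemma NN.mul {a c : k} (ha : NN a) (hc : NN c) : NN (a * c) := by
  obtain ⟨n, rfl⟩ := ha
  obtain ⟨m, rfl⟩ := hc
  exact ⟨n * m, by push_cast; rfl⟩

lemma NN.sum {κ : Type*} (s : Finset κ) (F : κ → k) (h : ∀ i ∈ s, NN (F i)) :
    NN (∑ i ∈ s, F i) := by
  classical
  induction s using Finset.induction_on with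
  | empty => simpa using NN.zero
  | insert a s ha ih =>
    rw [Finset.sum_insert ha]
    exact (h a (Finset.mem_insert_self _ _)).add (ih (fun i hi => h i (Finset.mem_insert_of_mem hi)))

lemma NN.single {κ : Type*} (i j : κ) : NN ((Finsupp.single i (1 : k)) j) := by
  classical
  rw [Finsupp.single_apply]
  split_ifs
  · exact NN.one
  · exact NN.zero

lemma NN.nonneg {a : k} (h : NN a) (σ : k →+* ℂ) : Nonneg σ a := by
  obtain ⟨n, rfl⟩ := h
  exact ⟨n, by positivity, by simp⟩

/-- **A `Φ`-set theoretic basis of a Hopf algebra over a field of characteristic zero becomes a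
positive basis after multiplication by one nonzero scalar.** -/
theorem main (σ : k →+* ℂ) {ι : Type w} (b : Basis ι k H) (hb : IsPhiSetTheoretic b) :
    ∃ (a : k) (b' : Basis ι k H), a ≠ 0 ∧ (∀ i, b' i = a • b i) ∧ IsPhiSetTheoretic b' ∧
      IsPositiveBasis σ b' := by
  classical
  choose f g hfg using hb
  obtain ⟨e0, he0, h1, h2⟩ := key b f g hfg
  have hu : ∀ _ : ι, IsUnit (e0⁻¹ : k) := fun _ => (isUnit_iff_ne_zero.2 (inv_ne_zero he0))
  let b' : Basis ι k H := b.isUnitSMul (w := fun _ => e0⁻¹) hu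
  have hb' : ∀ i, b' i = e0⁻¹ • b i := fun i => Basis.isUnitSMul_apply hu i
  have hfg' : ∀ i j, Phi k H (b' i ⊗ₜ[k] b' j) = b' (f i j) ⊗ₜ[k] b' (g i j) := by
    intro i j
    rw [hb', hb', hb', hb', ← TensorProduct.smul_tmul', TensorProduct.tmul_smul, map_smul, map_smul,
      hfg, ← TensorProduct.smul_tmul', TensorProduct.tmul_smul]
  have hone : (1 : H) = ∑ d ∈ (b.repr (1 : H)).support, b' d := by
    conv_lhs => rw [← b.linearCombination_repr (1 : H)]
    rw [Finsupp.linearCombination_apply, Finsupp.sum]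
    refine Finset.sum_congr rfl (fun d hd => ?_)
    rw [hb']
    congr 1
    rw [Finsupp.mem_support_iff] at hd
    have := (h2 d).resolve_left hd
    field_simp
    exact this
  have hcou : ∀ i, NN (counit (R := k) (b' i)) := by
    intro i
    rw [hb', map_smul, smul_eq_mul]
    rcases h1 i with h | h
    · rw [h, mul_zero]; exact NN.zero
    · rw [h, inv_mul_cancel₀ he0]; exact NN.one
  have hanti : ∀ i d, ∃ p q, HopfAlgebra.antipode k (b' i) * b' d =
      counit (R := k) (b' p) • b' q := by
    intro i d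
    obtain ⟨p, q, hp, hq⟩ := fg_surj b' f g hfg' i d
    refine ⟨p, q, ?_⟩
    have := antipode_Phi (k := k) (b' p) (b' q)
    rw [hfg', hp, hq] at this
    rw [← this]
    simp
  refine ⟨e0⁻¹, b', inv_ne_zero he0, hb', fun i j => ⟨_, _, hfg' i j⟩, ?_, ?_, ?_, ?_, ?_⟩
  · intro i
    apply NN.nonneg
    rw [hone, map_sum, Finsupp.coe_finsetSum, Finset.sum_apply]
    apply NN.sum
    intro d _
    rw [Basis.repr_self]
    exact NN.single _ _
  · exact fun i => (hcou i).nonneg σ
  · intro i j l
    apply NN.nonneg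
    rw [mul_eq b' f g hfg', map_smul, Finsupp.smul_apply, Basis.repr_self, smul_eq_mul]
    exact (hcou _).mul (NN.single _ _)
  · intro i p q
    apply NN.nonneg
    rw [← Phi_one, hone, TensorProduct.tmul_sum, map_sum, map_sum, Finsupp.coe_finsetSum,
      Finset.sum_apply]
    apply NN.sum
    intro d _
    rw [hfg', ← Basis.tensorProduct_apply, Basis.repr_self]
    exact NN.single _ _
  · intro i l
    apply NN.nonneg
    rw [← mul_one (HopfAlgebra.antipode k (b' i)), hone, Finset.mul_sum, map_sum,
      Finsupp.coe_finsetSum, Finset.sum_apply]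
    apply NN.sum
    intro d _
    obtain ⟨p, q, h⟩ := hanti i d
    rw [h, map_smul, Finsupp.smul_apply, Basis.repr_self, smul_eq_mul]
    exact (hcou _).mul (NN.single _ _)

/-- **Positive answer to Q1.** Let `k` be a field of characteristic `0` embedded in `ℂ` and `H` a
Hopf algebra over `k`, of any dimension. If `H` has a `Φ`-set theoretic basis, then `H` has the
positive basis property; in fact every `Φ`-set theoretic basis becomes a positive (and still
`Φ`-set theoretic) basis when all its members are multiplied by one suitable nonzero scalar. -/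
theorem result :
    ∀ (k : Type u) [Field k] [CharZero k] (σ : k →+* ℂ) (H : Type v) [Ring H] [HopfAlgebra k H]
      (ι : Type w) (b : Basis ι k H), IsPhiSetTheoretic b →
      ∃ (a : k) (b' : Basis ι k H), a ≠ 0 ∧ (∀ i, b' i = a • b i) ∧ IsPhiSetTheoretic b' ∧
        IsPositiveBasis σ b' :=
  fun _ _ _ σ _ _ _ _ b hb => main σ b hb

end Pool.Agent.Results.MP_078f6d_al.PositiveBasis
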